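import Pool.Agent.N963.GN.StmM
import Pool.Agent.N963.GN.W
import Pool.Agent.H370R2.Digamma

set_option autoImplicit false

/-!
# Task M3: the logarithmic derivative of the completed L-function of a cusp form
-/

namespace Pool.Agent.N348.GN

open Complex Filter Topology MeasureTheory
open Pool.Agent.N963.GN
open scoped ComplexConjugate

/-! ### The digamma function -/

section Digamma
open H370 H370.DG

theorem digamma_bd (R : ℝ) : ∃ C : ℝ, ∀ s : ℂ, 1 / 4 ≤ s.re → s.re ≤ R → 1 / 2 ≤ |s.im| →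
    ‖logDeriv Gamma s - Real.log |s.im|‖ ≤ C := by
  refine ⟨Real.log (2 * R + 5) + Real.pi + 2 + 2 + ∑' n : ℕ, 1 / ((n : ℝ) + 1) ^ 2, ?_⟩
  intro s h1 h2 h3
  have hs : 0 < s.re := by linarith
  have hn1 : 1 / 2 ≤ ‖s‖ := h3.trans (abs_im_le_norm s)
  have hn2 : 1 / 2 ≤ ‖s + 1‖ := by
    refine le_trans ?_ (abs_im_le_norm (s + 1))
    simpa using h3
  have hn3 : |s.im| ≤ ‖s + 2‖ := by
    refine le_trans ?_ (abs_im_le_norm (s + 2))
    simp
  have hn4 : ‖s + 2‖ ≤ (R + 2) + |s.im| := by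
    refine (norm_le_abs_re_add_abs_im (s + 2)).trans ?_
    simp only [add_re, re_ofNat, add_im, im_ofNat, add_zero]
    rw [abs_of_nonneg (by linarith)]
    linarith
  have hpos : 0 < |s.im| := by linarith
  have b1 : ‖1 / s‖ ≤ 2 := by
    rw [norm_div, norm_one, div_le_iff₀ (by linarith)]
    linarith
  have b2 : ‖1 / (s + 1)‖ ≤ 2 := by
    rw [norm_div, norm_one, div_le_iff₀ (by linarith)]
    linarith
  have b3 : ‖log (s + 2) - Real.log |s.im|‖ ≤ Real.log (2 * R + 5) + Real.pi := by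
    have e : log (s + 2) - Real.log |s.im| =
        ((Real.log (‖s + 2‖ / |s.im|) : ℝ) : ℂ) + (arg (s + 2) : ℂ) * I := by
      rw [Real.log_div (by linarith) hpos.ne']
      rw [log]
      push_cast
      ring
    rw [e]
    refine (norm_add_le _ _).trans (add_le_add ?_ ?_)
    · rw [Complex.norm_real, Real.norm_eq_abs, abs_of_nonneg]
      · apply Real.log_le_log (div_pos (by linarith) hpos)
        rw [div_le_iff₀ hpos]
        nlinarith
      · apply Real.log_nonneg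
        rw [le_div_iff₀ hpos]
        linarith
    · rw [norm_mul, norm_I, mul_one, Complex.norm_real, Real.norm_eq_abs]
      exact abs_arg_le_pi _
  have e : logDeriv Gamma s - Real.log |s.im| =
      (log (s + 2) - Real.log |s.im|) - 1 / s - 1 / (s + 1) + ∑' n, er n s := by
    rw [logDeriv_Gamma' hs]
    ring
  rw [e]
  calc _ ≤ ‖(log (s + 2) - Real.log |s.im|) - 1 / s - 1 / (s + 1)‖ + ‖∑' n, er n s‖ :=
        norm_add_le _ _
    _ ≤ (‖(log (s + 2) - Real.log |s.im|) - 1 / s‖ + ‖1 / (s + 1)‖) + ‖∑' n, er n s‖ := by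
        gcongr
        exact norm_sub_le _ _
    _ ≤ ((‖(log (s + 2) - Real.log |s.im|)‖ + ‖1 / s‖) + ‖1 / (s + 1)‖) + ‖∑' n, er n s‖ := by
        gcongr
        exact norm_sub_le _ _
    _ ≤ ((Real.log (2 * R + 5) + Real.pi + 2) + 2) + ∑' n : ℕ, 1 / ((n : ℝ) + 1) ^ 2 := by
        gcongr
        exact norm_tsum_er hs
    _ = _ := by ring

end Digamma

/-! ### The Mellin transform -/

theorem mellin_exp (f : ℝ → ℂ) (s : ℂ) :
    mellin f s = ∫ u : ℝ, cexp (s * u) * f (Real.exp u) := by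
  have h := integral_image_eq_integral_abs_deriv_smul (s := Set.univ) (f := Real.exp)
    (f' := Real.exp) MeasurableSet.univ (fun x _ => (Real.hasDerivAt_exp x).hasDerivWithinAt)
    Real.exp_injective.injOn (fun t : ℝ => (t : ℂ) ^ (s - 1) • f t)
  rw [Set.image_univ, Real.range_exp] at h
  rw [mellin, h, Measure.restrict_univ]
  refine integral_congr_ae (Eventually.of_forall fun u => ?_)
  have hne : ((Real.exp u : ℝ) : ℂ) ≠ 0 := by exact_mod_cast (Real.exp_pos u).ne'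
  have hlog : log ((Real.exp u : ℝ) : ℂ) = u := by
    rw [← Complex.ofReal_log (Real.exp_pos u).le, Real.log_exp]
  simp only
  rw [abs_of_pos (Real.exp_pos u), Complex.real_smul, smul_eq_mul, ← mul_assoc,
    cpow_def_of_ne_zero hne, hlog, Complex.ofReal_exp, ← Complex.exp_add]
  congr 2
  ring

variable {N k : ℕ} {F : ℂ → ℂ} {b : ℕ → ℂ} {κ : ℂ}

theorem Lt_eq (w : ℂ) : Lt (fun u : ℝ => Km N k F κ (u : ℂ)) w =
    κ * mellin (fun t : ℝ => F (I * t / (Real.sqrt N : ℝ))) (k / 2 + I * w) := by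
  rw [mellin_exp, ← integral_const_mul]
  unfold Lt Km
  refine integral_congr_ae (Eventually.of_forall fun u => ?_)
  simp only
  rw [show ((k : ℂ) / 2 + I * w) * (u : ℂ) = (k : ℂ) * u / 2 + I * w * u by ring, Complex.exp_add,
    Complex.ofReal_exp]
  ring

theorem bb_rpow (h : MF N k F b κ) : ∃ C : ℝ, ∀ n : ℕ, n ≠ 0 → ‖b n‖ ≤ C * (n : ℝ) ^ (k : ℝ) := by
  obtain ⟨B, hB, hb⟩ := h.bb
  refine ⟨B, fun n hn => ?_⟩
  rw [Real.rpow_natCast]
  exact hb n (Nat.one_le_iff_ne_zero.2 hn)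

theorem absc (h : MF N k F b κ) : LSeries.abscissaOfAbsConv b ≤ ((k : ℝ) + 1 : ℝ) := by
  have := LSeries.abscissaOfAbsConv_le_of_le_const_mul_rpow (bb_rpow h)
  exact_mod_cast this

theorem absc_lt (h : MF N k F b κ) {σ : ℝ} (hσ : (k : ℝ) + 1 < σ) :
    LSeries.abscissaOfAbsConv b < σ :=
  (absc h).trans_lt (by exact_mod_cast hσ)

theorem summ (h : MF N k F b κ) {s : ℂ} (hs : (k : ℝ) + 1 < s.re) : LSeriesSummable b s :=
  LSeriesSummable_of_abscissaOfAbsConv_lt_re (absc_lt h hs)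

theorem mellin_F (h : MF N k F b κ) {s : ℂ} (hs : (k : ℝ) + 1 < s.re) :
    mellin (fun t : ℝ => F (I * t / (Real.sqrt N : ℝ))) s =
      Gamma s / (((2 * Real.pi / Real.sqrt N : ℝ) : ℂ)) ^ s * LSeries b s := by
  have hN : 0 < Real.sqrt N := Real.sqrt_pos.2 (by exact_mod_cast h.hN)
  have hA : 0 < 2 * Real.pi / Real.sqrt N := by
    have := Real.pi_pos
    positivity
  set A : ℝ := 2 * Real.pi / Real.sqrt N with hAdef
  have hs0 : 0 < s.re := by
    have : (0 : ℝ) ≤ k := Nat.cast_nonneg k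
    linarith
  have hsumL := summ h hs
  have hA0 : ((A : ℝ) : ℂ) ^ s ≠ 0 := by
    rw [cpow_def_of_ne_zero (by exact_mod_cast hA.ne')]
    exact Complex.exp_ne_zero _
  have e0 : ∀ n : ℕ, (((A * (n + 1) : ℝ)) : ℂ) ^ s = (A : ℂ) ^ s * ((n + 1 : ℕ) : ℂ) ^ s := by
    intro n
    rw [Complex.ofReal_mul, mul_cpow_ofReal_nonneg hA.le (by positivity)]
    push_cast
    rfl
  have hterm : ∀ n : ℕ, LSeries.term b s (n + 1) = b (n + 1) / ((n + 1 : ℕ) : ℂ) ^ s := fun n =>
    LSeries.term_of_ne_zero (Nat.succ_ne_zero n) b s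
  have hnorm : ∀ n : ℕ, ‖b (n + 1)‖ / (A * (n + 1)) ^ s.re =
      (A ^ s.re)⁻¹ * ‖LSeries.term b s (n + 1)‖ := by
    intro n
    rw [LSeries.norm_term_eq, if_neg (Nat.succ_ne_zero n), Real.mul_rpow hA.le (by positivity)]
    push_cast
    field_simp
  have H := hasSum_mellin (a := fun n : ℕ => b (n + 1)) (p := fun n : ℕ => A * (n + 1))
    (F := fun t : ℝ => F (I * t / (Real.sqrt N : ℝ))) (s := s)
    (fun n => Or.inr (by positivity)) hs0 ?_ ?_
  · have H2 : HasSum (fun n : ℕ => Gamma s / ((A : ℝ) : ℂ) ^ s * LSeries.term b s (n + 1))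
        (Gamma s / ((A : ℝ) : ℂ) ^ s * LSeries b s) := by
      refine HasSum.mul_left _ ?_
      have := (hasSum_nat_add_iff' (f := LSeries.term b s) 1).2 hsumL.hasSum
      rw [Finset.sum_range_one, LSeries.term_zero, sub_zero] at this
      exact this
    refine H.unique ?_
    convert H2 using 1
    funext n
    rw [hterm]
    have := e0 n
    push_cast at this ⊢
    rw [this]
    field_simp
  · intro t ht
    have ht' : 0 < t := ht
    have him : 0 < (I * t / (Real.sqrt N : ℝ)).im := by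
      rw [Complex.div_ofReal_im]
      simp
      positivity
    have h1 := h.sum _ him
    convert h1 using 1
    funext n
    congr 1
    rw [Complex.ofReal_exp]
    congr 1
    rw [hAdef]
    push_cast
    have hNc : ((Real.sqrt N : ℝ) : ℂ) ≠ 0 := by exact_mod_cast hN.ne'
    field_simp
    rw [Complex.I_sq]
    ring
  · simp_rw [hnorm]
    exact ((summable_nat_add_iff 1).2 hsumL.norm).mul_left _

/-! ### Bounds for the L-series -/

theorem L_bounds (h : MF N k F b κ) : ∃ σ C : ℝ, (k : ℝ) + 2 ≤ σ ∧ 0 ≤ C ∧ ∀ s : ℂ, σ ≤ s.re →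
    LSeries b s ≠ 0 ∧ ‖logDeriv (LSeries b) s‖ ≤ C := by
  obtain ⟨σ1, hσ1⟩ : ∃ σ1 : ℝ, σ1 = (k : ℝ) + 2 := ⟨_, rfl⟩
  have hlt : (k : ℝ) + 1 < σ1 := by rw [hσ1]; linarith
  -- the tail
  obtain ⟨g, hg⟩ : ∃ g : ℕ → ℂ, g = fun n => if n = 1 then 0 else b n := ⟨_, rfl⟩
  have hsb : LSeriesSummable b (σ1 : ℂ) := summ h (by simpa using hlt)
  have hle : ∀ s n, ‖LSeries.term g s n‖ ≤ ‖LSeries.term b s n‖ := by
    intro s n
    rw [LSeries.norm_term_eq, LSeries.norm_term_eq]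
    split_ifs with h0
    · exact le_rfl
    · have : ‖g n‖ ≤ ‖b n‖ := by
        rw [hg]
        simp only
        split_ifs
        · rw [norm_zero]; exact norm_nonneg _
        · exact le_rfl
      gcongr
  have hsg : Summable fun n => ‖LSeries.term g (σ1 : ℂ) n‖ :=
    hsb.norm.of_nonneg_of_le (fun _ => norm_nonneg _) (hle _)
  obtain ⟨C2, hC2⟩ : ∃ C2 : ℝ, C2 = ∑' n, ‖LSeries.term g (σ1 : ℂ) n‖ := ⟨_, rfl⟩
  have hC20 : 0 ≤ C2 := by rw [hC2]; exact tsum_nonneg fun _ => norm_nonneg _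
  have hdec : ∀ s : ℂ, σ1 ≤ s.re → ∀ n, ‖LSeries.term g s n‖ ≤
      (2 : ℝ) ^ (-(s.re - σ1)) * ‖LSeries.term g (σ1 : ℂ) n‖ := by
    intro s hs n
    rw [LSeries.norm_term_eq, LSeries.norm_term_eq]
    split_ifs with h0
    · simp
    · rcases eq_or_ne n 1 with h1 | h1
      · have : g n = 0 := by rw [hg, h1]; simp
        rw [this]
        simp
      · have hn2 : (2 : ℝ) ≤ n := by
          have : 2 ≤ n := by omega
          exact_mod_cast this
        have hn0 : (0 : ℝ) < n := by linarith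
        rw [Complex.ofReal_re]
        have e1 : (n : ℝ) ^ s.re = (n : ℝ) ^ (s.re - σ1) * (n : ℝ) ^ σ1 := by
          rw [← Real.rpow_add hn0]
          congr 1
          ring
        have e2 : (2 : ℝ) ^ (s.re - σ1) ≤ (n : ℝ) ^ (s.re - σ1) :=
          Real.rpow_le_rpow (by norm_num) hn2 (by linarith)
        rw [e1, Real.rpow_neg (by norm_num), ← div_eq_inv_mul, div_div, mul_comm ((n : ℝ) ^ σ1)]
        gcongr
  have htail : ∀ s : ℂ, σ1 ≤ s.re → ‖LSeries b s - b 1‖ ≤ (2 : ℝ) ^ (-(s.re - σ1)) * C2 := by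
    intro s hs
    have hsbs : LSeriesSummable b s := summ h (by linarith)
    have hsgs : LSeriesSummable g s := Summable.of_norm
      (hsbs.norm.of_nonneg_of_le (fun _ => norm_nonneg _) (hle s))
    have hfun : LSeries.term b s = fun n => LSeries.term g s n + (if n = 1 then b 1 else 0) := by
      funext n
      rcases eq_or_ne n 0 with h0 | h0
      · subst h0
        simp
      · rw [LSeries.term_of_ne_zero h0, LSeries.term_of_ne_zero h0, hg]
        simp only
        split_ifs with h1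
        · subst h1
          simp
        · simp
    have heq : LSeries b s - b 1 = LSeries g s := by
      unfold LSeries
      rw [hfun, (hsgs.tsum_add (hasSum_ite_eq 1 (b 1)).summable), tsum_ite_eq]
      ring
    rw [heq]
    unfold LSeries
    rw [hC2, ← tsum_mul_left]
    exact tsum_of_norm_bounded (hsg.mul_left _).hasSum (hdec s hs)
  -- the derivative
  have hslog : LSeriesSummable (LSeries.logMul b) (σ1 : ℂ) :=
    LSeriesSummable_logMul_of_lt_re (by
      rw [Complex.ofReal_re]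
      exact absc_lt h hlt)
  obtain ⟨C1, hC1⟩ : ∃ C1 : ℝ, C1 = ∑' n, ‖LSeries.term (LSeries.logMul b) (σ1 : ℂ) n‖ := ⟨_, rfl⟩
  have hC10 : 0 ≤ C1 := by rw [hC1]; exact tsum_nonneg fun _ => norm_nonneg _
  have hder : ∀ s : ℂ, σ1 ≤ s.re → ‖deriv (LSeries b) s‖ ≤ C1 := by
    intro s hs
    rw [(LSeries_hasDerivAt (absc_lt h (by linarith : (k : ℝ) + 1 < s.re))).deriv, norm_neg, hC1]
    unfold LSeries
    refine tsum_of_norm_bounded hslog.norm.hasSum fun n => ?_
    exact LSeries.norm_term_le_of_re_le_re _ (by rw [Complex.ofReal_re]; exact hs) n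
  -- conclusion
  have hb1 : 0 < ‖b 1‖ := norm_pos_iff.2 h.b1
  obtain ⟨m, hm⟩ : ∃ m : ℕ, C2 / (‖b 1‖ / 2) < 2 ^ m := pow_unbounded_of_one_lt _ (by norm_num)
  refine ⟨σ1 + m, C1 / (‖b 1‖ / 2), by rw [hσ1]; linarith [Nat.cast_nonneg (α := ℝ) m],
    by positivity, ?_⟩
  intro s hs
  have hm0 : (0 : ℝ) ≤ m := Nat.cast_nonneg m
  have h1 := htail s (by linarith)
  have h2 : (2 : ℝ) ^ (-(s.re - σ1)) * C2 ≤ ‖b 1‖ / 2 := by
    have h3 : (2 : ℝ) ^ (-(s.re - σ1)) ≤ ((2 : ℝ) ^ m)⁻¹ := by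
      rw [← Real.rpow_natCast, ← Real.rpow_neg (by norm_num)]
      apply Real.rpow_le_rpow_of_exponent_le (by norm_num)
      linarith
    have h4 : C2 ≤ 2 ^ m * (‖b 1‖ / 2) := by
      rw [div_lt_iff₀ (by positivity)] at hm
      exact hm.le
    calc (2 : ℝ) ^ (-(s.re - σ1)) * C2 ≤ ((2 : ℝ) ^ m)⁻¹ * (2 ^ m * (‖b 1‖ / 2)) := by gcongr
      _ = ‖b 1‖ / 2 := by field_simp
  have h5 : ‖b 1‖ / 2 ≤ ‖LSeries b s‖ := by
    have h6 : ‖b 1‖ ≤ ‖LSeries b s‖ + ‖LSeries b s - b 1‖ := by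
      have := norm_sub_le (LSeries b s) (LSeries b s - b 1)
      rwa [sub_sub_cancel] at this
    linarith
  have h7 : 0 < ‖LSeries b s‖ := by linarith
  refine ⟨norm_pos_iff.1 h7, ?_⟩
  rw [logDeriv_apply, norm_div]
  have := hder s (by linarith)
  gcongr

/-! ### The logarithmic derivative in the lower half plane -/

theorem Lt_formula (h : MF N k F b κ) {w : ℂ} (hw : (k : ℝ) + 1 < ((k : ℂ) / 2 + I * w).re) :
    Lt (fun u : ℝ => Km N k F κ (u : ℂ)) w =
      κ * ((((2 * Real.pi / Real.sqrt N : ℝ) : ℂ)) ^ (-((k : ℂ) / 2 + I * w)) *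
        (Gamma ((k : ℂ) / 2 + I * w) * LSeries b ((k : ℂ) / 2 + I * w))) := by
  rw [Lt_eq, mellin_F h hw, cpow_neg]
  ring

theorem low (h : MF N k F b κ) {w : ℂ} (hw : (k : ℝ) + 1 < ((k : ℂ) / 2 + I * w).re)
    (hL : LSeries b ((k : ℂ) / 2 + I * w) ≠ 0) :
    Lt (fun u : ℝ => Km N k F κ (u : ℂ)) w ≠ 0 ∧
    logDeriv (Lt (fun u : ℝ => Km N k F κ (u : ℂ))) w =
      I * (-((Real.log (2 * Real.pi / Real.sqrt N) : ℝ) : ℂ) +
        (logDeriv Gamma ((k : ℂ) / 2 + I * w) + logDeriv (LSeries b) ((k : ℂ) / 2 + I * w))) := by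
  have hN : 0 < Real.sqrt N := Real.sqrt_pos.2 (by exact_mod_cast h.hN)
  have hA : 0 < 2 * Real.pi / Real.sqrt N := by
    have := Real.pi_pos
    positivity
  obtain ⟨A, hAdef⟩ : ∃ A : ℝ, A = 2 * Real.pi / Real.sqrt N := ⟨_, rfl⟩
  rw [← hAdef] at hA
  have hAc : (A : ℂ) ≠ 0 := by exact_mod_cast hA.ne'
  have hk : (0 : ℝ) ≤ k := Nat.cast_nonneg k
  have hs0 : 0 < ((k : ℂ) / 2 + I * w).re := by linarith
  have hG0 : Gamma ((k : ℂ) / 2 + I * w) ≠ 0 := Gamma_ne_zero_of_re_pos hs0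
  have hGd : DifferentiableAt ℂ Gamma ((k : ℂ) / 2 + I * w) := by
    apply differentiableAt_Gamma
    intro m hm
    rw [hm] at hs0
    simp only [neg_re, natCast_re] at hs0
    have : (0 : ℝ) ≤ m := Nat.cast_nonneg m
    linarith
  have hp0 : (A : ℂ) ^ (-((k : ℂ) / 2 + I * w)) ≠ 0 := by
    rw [cpow_def_of_ne_zero hAc]
    exact Complex.exp_ne_zero _
  have hval := Lt_formula h hw
  rw [← hAdef] at hval ⊢
  refine ⟨?_, ?_⟩
  · rw [hval]
    exact mul_ne_zero h.κ0 (mul_ne_zero hp0 (mul_ne_zero hG0 hL))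
  -- the factorization near `w`
  have hev : Lt (fun u : ℝ => Km N k F κ (u : ℂ)) =ᶠ[𝓝 w] fun z =>
      κ * ((fun z : ℂ => (A : ℂ) ^ (-((k : ℂ) / 2 + I * z))) z *
        ((Gamma ∘ fun z : ℂ => (k : ℂ) / 2 + I * z) z *
          (LSeries b ∘ fun z : ℂ => (k : ℂ) / 2 + I * z) z)) := by
    have hopen : IsOpen {z : ℂ | (k : ℝ) + 1 < ((k : ℂ) / 2 + I * z).re} :=
      isOpen_lt continuous_const (by fun_prop)
    filter_upwards [hopen.mem_nhds hw] with z hz
    rw [Lt_formula h hz, ← hAdef]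
    rfl
  have dg : HasDerivAt (fun z : ℂ => (k : ℂ) / 2 + I * z) I w := by
    have := ((hasDerivAt_id w).const_mul I).const_add ((k : ℂ) / 2)
    rw [mul_one] at this
    exact this
  have dp : HasDerivAt (fun z : ℂ => (A : ℂ) ^ (-((k : ℂ) / 2 + I * z)))
      ((A : ℂ) ^ (-((k : ℂ) / 2 + I * w)) * log A * (-I)) w :=
    dg.neg.const_cpow (Or.inl hAc)
  have dG : DifferentiableAt ℂ (Gamma ∘ fun z : ℂ => (k : ℂ) / 2 + I * z) w :=
    DifferentiableAt.comp w hGd dg.differentiableAt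
  have hLd : DifferentiableAt ℂ (LSeries b) ((k : ℂ) / 2 + I * w) :=
    (LSeries_hasDerivAt (absc_lt h hw)).differentiableAt
  have dL : DifferentiableAt ℂ (LSeries b ∘ fun z : ℂ => (k : ℂ) / 2 + I * z) w :=
    DifferentiableAt.comp w hLd dg.differentiableAt
  rw [(logDeriv_congr_nhds hev).eq_of_nhds, logDeriv_const_mul _ _ h.κ0]
  have m1 := logDeriv_mul (f := fun z : ℂ => (A : ℂ) ^ (-((k : ℂ) / 2 + I * z)))
    (g := fun z : ℂ => (Gamma ∘ fun z : ℂ => (k : ℂ) / 2 + I * z) z *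
          (LSeries b ∘ fun z : ℂ => (k : ℂ) / 2 + I * z) z) w hp0
    (mul_ne_zero hG0 hL) dp.differentiableAt (dG.mul dL)
  have m2 := logDeriv_mul (f := Gamma ∘ fun z : ℂ => (k : ℂ) / 2 + I * z)
    (g := LSeries b ∘ fun z : ℂ => (k : ℂ) / 2 + I * z) w hG0 hL dG dL
  have m3 := logDeriv_comp (f := Gamma) (g := fun z : ℂ => (k : ℂ) / 2 + I * z) (x := w) hGd
    dg.differentiableAt
  have m4 := logDeriv_comp (f := LSeries b) (g := fun z : ℂ => (k : ℂ) / 2 + I * z) (x := w) hLd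
    dg.differentiableAt
  rw [dg.deriv] at m3 m4
  have m5 : logDeriv (fun z : ℂ => (A : ℂ) ^ (-((k : ℂ) / 2 + I * z))) w = -(I * log A) := by
    rw [logDeriv_apply, dp.deriv, mul_assoc, mul_div_cancel_left₀ _ hp0]
    ring
  rw [m1, m2, m3, m4, m5, Complex.ofReal_log hA.le]
  ring

/-- **M3** -/
theorem m3 : S_M3 := by
  intro N k F b κ h
  obtain ⟨σ, CL, hσ, hCL, hL⟩ := L_bounds h
  have hk : (0 : ℝ) ≤ k := Nat.cast_nonneg k
  obtain ⟨CG, hCG⟩ := digamma_bd ((k : ℝ) / 2 + (σ + 2) + 1)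
  obtain ⟨la, hla⟩ : ∃ la : ℝ, la = Real.log (2 * Real.pi / Real.sqrt N) := ⟨_, rfl⟩
  refine ⟨1, σ + 2, 1, |la| + |CG| + CL + Real.log 2, 4, one_pos, one_pos, by linarith, ?_,
    by norm_num, ?_⟩
  · have : 0 < Real.log 2 := Real.log_pos (by norm_num)
    positivity
  intro x hx z hz
  have hre : |z.re - x| ≤ 1 := by
    have := (abs_re_le_norm (z - ((x : ℂ) + ((σ + 2 : ℝ) : ℂ) * I))).trans hz
    simpa using this
  have him : |z.im - (σ + 2)| ≤ 1 := by
    have := (abs_im_le_norm (z - ((x : ℂ) + ((σ + 2 : ℝ) : ℂ) * I))).trans hz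
    simpa using this
  rw [abs_le] at him
  have hz1 : |x| - 1 ≤ |z.re| := by
    have := abs_sub_abs_le_abs_sub x z.re
    rw [abs_sub_comm x z.re] at this
    linarith
  have hz2 : |z.re| ≤ |x| + 1 := by
    have := abs_sub_abs_le_abs_sub z.re x
    linarith
  obtain ⟨f, hf⟩ : ∃ f : ℂ → ℂ, f = Lt (fun u : ℝ => Km N k F κ (u : ℂ)) := ⟨_, rfl⟩
  have hsym : ∀ z, f (conj z) = conj (f z) := by
    rw [hf]
    exact sym_Lt (fun u => h.herm u)
  have hff : (conj ∘ f ∘ conj : ℂ → ℂ) = f := by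
    funext z
    simp only [Function.comp, hsym, Complex.conj_conj]
  have hder : deriv f z = conj (deriv f (conj z)) := by
    have := congrFun (deriv_conj_conj (f := f)) z
    rw [hff] at this
    exact this
  have hfz : f z = conj (f (conj z)) := by rw [hsym, Complex.conj_conj]
  have hlogd : logDeriv f z = conj (logDeriv f (conj z)) := by
    rw [logDeriv_apply, logDeriv_apply, hder, hfz, map_div₀]
  -- the point in the lower half plane
  have hsre : ((k : ℂ) / 2 + I * conj z).re = (k : ℝ) / 2 + z.im := by simp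
  have hsim : ((k : ℂ) / 2 + I * conj z).im = z.re := by simp
  obtain ⟨hL0, hLb⟩ := hL ((k : ℂ) / 2 + I * conj z) (by rw [hsre]; linarith)
  obtain ⟨h1, h2⟩ := low h (w := conj z) (by rw [hsre]; linarith) hL0
  have hG := hCG ((k : ℂ) / 2 + I * conj z) (by rw [hsre]; linarith) (by rw [hsre]; linarith)
    (by rw [hsim]; linarith)
  rw [hsim] at hG
  rw [← hf] at h1 h2 ⊢
  rw [← hla] at h2
  refine ⟨?_, ?_⟩
  · rw [hfz]
    exact (map_ne_zero _).2 h1
  have hlog : |(Real.log |z.re|) - (Real.log |x|)| ≤ Real.log 2 := by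
    have hx0 : 0 < |x| := by linarith
    rw [← Real.log_div (by linarith) hx0.ne', abs_le]
    have hp : 0 < |z.re| / |x| := by
      apply div_pos _ hx0
      linarith
    constructor
    · rw [← Real.log_inv]
      apply Real.log_le_log (by norm_num)
      rw [le_div_iff₀ hx0]
      linarith
    · apply Real.log_le_log hp
      rw [div_le_iff₀ hx0]
      linarith
  have e1 : logDeriv f z + I * ((1 * Real.log |x| : ℝ) : ℂ) =
      conj (logDeriv f (conj z) - I * ((Real.log |x| : ℝ) : ℂ)) := by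
    rw [hlogd, map_sub, map_mul, Complex.conj_I, Complex.conj_ofReal, one_mul]
    ring
  rw [e1, Complex.norm_conj, h2]
  have e2 : I * (-(la : ℂ) + (logDeriv Gamma ((k : ℂ) / 2 + I * conj z) +
      logDeriv (LSeries b) ((k : ℂ) / 2 + I * conj z))) - I * ((Real.log |x| : ℝ) : ℂ) =
      I * (((-(la : ℂ) + (logDeriv Gamma ((k : ℂ) / 2 + I * conj z) - Real.log |z.re|)) +
        logDeriv (LSeries b) ((k : ℂ) / 2 + I * conj z)) +
          ((Real.log |z.re| - Real.log |x| : ℝ) : ℂ)) := by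
    push_cast
    ring
  rw [e2, norm_mul, Complex.norm_I, one_mul]
  refine (norm_add_le _ _).trans (add_le_add ((norm_add_le _ _).trans (add_le_add
    ((norm_add_le _ _).trans (add_le_add ?_ ?_)) hLb)) ?_)
  · rw [norm_neg, Complex.norm_real, Real.norm_eq_abs]
  · exact hG.trans (le_abs_self _)
  · rw [Complex.norm_real, Real.norm_eq_abs]
    exact hlog

end Pool.Agent.N348.GN
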